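import Pool.Agent.N282.PM.All
import Pool.Agent.N282.PM.Beu2

/-!
# Large values at well-spaced points for generalised integers with randomly perturbed primes

Replace every prime `p` by `ξ_p = p + δ_p U_p`, `U_p` independent and uniform on `[0,1]`, `0 < δ_p ≤ 1` decaying more
slowly than every power of `p`, and every integer `n = ∏ p^k` by the generalised integer `x_n = ∏ ξ_p^k` of Beurling.
Almost surely the bound of Q1, `|S| ≤ C N² V⁻² T^ε`, holds in the range `V² ≥ N^(2-θ) T^ε`, `T ≥ N^κ`, for all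
coefficients supported on the integers which have a prime factor `> N^θ`; for coefficients supported on the primes this
is nearly the full range `V² ≥ N T^ε` of Q1. There is no hypothesis. Parts of the project were formalised by helpers 477,
593, 394, 615, 954, 11, 592.
-/

set_option autoImplicit false

open MeasureTheory Filter Topology

namespace Pool.Agent.Results.MP_a93a41_nt.RandomPrimes

/-- The generalised integers: `z ξ n = ∏ ξ_p^k` if `n = ∏ p^k`. -/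
noncomputable def z (ξ : ℕ → ℝ) (n : ℕ) : ℝ := n.factorization.prod fun p k => ξ p ^ k

/-- `D(it) = ∑_{n ≤ N} a_n x_n^{-it}` with the numbers `x_n` in place of the integers `n`. -/
noncomputable def D (x : ℕ → ℝ) (a : ℕ → ℂ) (N : ℕ) (t : ℝ) : ℂ :=
  ∑ n ∈ Finset.Icc 1 N, a n * Complex.exp (-(Complex.I * t * Real.log (x n)))

/-- Almost surely: for all `ε, κ, θ > 0` there is `C` such that `|S| ≤ C N² V⁻² T^ε` whenever `T ≥ N^κ`,
`V² ≥ N^(2-θ) T^ε`, `∑ |a_n|² ≤ N`, `a_n = 0` unless `n` has a prime factor `> N^θ`, and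
`|∑_{n ≤ N} a_n x_n^{-it}| ≥ V` for all `t` in the finite `1`-separated set `S ⊂ [0, T]`. -/
theorem result {Ω : Type} [MeasurableSpace Ω] (P : Measure Ω) [IsProbabilityMeasure P] (U : ℕ → Ω → ℝ)
    (hm : ∀ n, Measurable (U n)) (hi : ProbabilityTheory.iIndepFun U P)
    (hU : ∀ n, P.map (U n) = volume.restrict (Set.Icc 0 1)) (δ : ℕ → ℝ) (hδ : ∀ n, 0 < δ n ∧ δ n ≤ 1)
    (hδ' : ∀ ε : ℝ, 0 < ε → ∃ c : ℝ, 0 < c ∧ ∀ n : ℕ, 1 ≤ n → c * (n : ℝ) ^ (-ε) ≤ δ n) :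
    ∀ᵐ ω ∂P, ∀ ε κ θ : ℝ, 0 < ε → 0 < κ → 0 < θ → ∃ C : ℝ, ∀ (N : ℕ) (T V : ℝ), 1 ≤ N → 1 ≤ T → 0 < V →
      (N : ℝ) ^ κ ≤ T → (N : ℝ) ^ (2 - θ) * T ^ ε ≤ V ^ 2 → ∀ (a : ℕ → ℂ) (S : Finset ℝ),
        ∑ n ∈ Finset.Icc 1 N, ‖a n‖ ^ 2 ≤ N →
        (∀ n, a n ≠ 0 → ∃ p : ℕ, p.Prime ∧ p ∣ n ∧ (N : ℝ) ^ θ < p) →
        (∀ t ∈ S, 0 ≤ t ∧ t ≤ T) → (∀ t ∈ S, ∀ u ∈ S, t ≠ u → 1 ≤ |t - u|) →
        (∀ t ∈ S, V ≤ ‖D (z fun p => p + δ p * U p ω) a N t‖) →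
          (S.card : ℝ) ≤ C * (N : ℝ) ^ 2 * V ^ (-2 : ℤ) * T ^ ε := by
  have hpos : ∀ᵐ ω ∂P, ∀ n, 0 ≤ U n ω := by
    rw [ae_all_iff]
    intro n
    have h1 : ∀ᵐ u ∂(P.map (U n)), 0 ≤ u := by
      rw [hU n]
      exact (ae_restrict_mem measurableSet_Icc).mono fun u hu => hu.1
    exact ae_of_ae_map (hm n).aemeasurable h1
  filter_upwards [Pool.Agent.N282.PM.a_AS Ω _ P inferInstance U (fun n => (n : ℝ)) δ 1 hm hi hU le_rfl
    Pool.Agent.N282.PM.spread_id hδ hδ', hpos] with ω hω hω'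
  intro ε κ θ hε hκ hθ
  obtain ⟨C, hC⟩ := Pool.Agent.N282.PM.Beu_WS _ hω (fun p hp => by
    have h1 : (0 : ℝ) < p := by exact_mod_cast hp.pos
    have h2 := (hδ p).1
    have h3 := hω' p
    show 0 < (p : ℝ) + δ p * U p ω
    positivity) ε κ θ hε hκ hθ
  refine ⟨C, fun N T V hN hT hV hNT hV2 a S ha hsupp hS hsep hD => ?_⟩
  refine hC N T V hN hT hV hNT hV2 a S ha (fun n _ hn => hsupp n hn) hS hsep fun t ht => ?_
  have e : ∀ n : ℕ, Pool.Agent.N282.PM.ph (-t)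
      (Pool.Agent.N282.PM.mz (Pool.Agent.N282.PM.pt (fun n => (n : ℝ)) δ U ω) n) =
      Complex.exp (-(Complex.I * t * Real.log (z (fun p => p + δ p * U p ω) n))) := by
    intro n
    unfold Pool.Agent.N282.PM.ph Pool.Agent.N282.PM.pt Pool.Agent.N282.PM.mz z
    congr 1
    push_cast
    ring
  simp only [e]
  exact hD t ht

end Pool.Agent.Results.MP_a93a41_nt.RandomPrimes
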