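import Pool.Agent.N282.PM.All

/-!
# Large values at well-spaced points: the conjecture for almost every perturbation of every sequence of positive density

Let `y_1, y_2, …` be ANY real numbers `≥ 1` such that for every `N` the first `N` of them are at most `m N` and at most
`m` of them lie in an interval of length `1` (for example `y_n = n`, or `y_n = n` plus a bounded sequence), `U_n`
independent and uniform on `[0,1]`, and `0 < δ_n ≤ 1` with `δ_n ≥ c_ε n^(-ε)` for every `ε > 0` (for example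
`δ_n = 1 / log (n + 2)`). Almost surely the statement of Q1 holds with the numbers `y_n + δ_n U_n` in place of the
integers `n`, for all `T ≥ N^κ` (`κ > 0` arbitrary), and for all coefficients with `∑ |a_n|² ≤ N` (instead of
`|a_n| ≤ 1`).

Proof: duality, a sampling theorem by Maurey's method and a union bound (see `MP_71ac24_nt.PerturbedIntegers`), and the
mean value theorem for separated frequencies on the set of the possible values of `y_n + δ_n U_n`. Parts were formalised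
by helpers 477, 593, 394, 615, 954, 11, 592.
-/

set_option autoImplicit false

open MeasureTheory Filter Topology Classical

namespace Pool.Agent.Results.MP_a93a41_nt.SmoothedSequences

/-- `D(it) = ∑_{n ≤ N} a_n x_n^{-it}` with the numbers `x_n` in place of the integers `n`. -/
noncomputable def D (x : ℕ → ℝ) (a : ℕ → ℂ) (N : ℕ) (t : ℝ) : ℂ :=
  ∑ n ∈ Finset.Icc 1 N, a n * Complex.exp (-(Complex.I * t * Real.log (x n)))

/-- `y_n ≥ 1`, the first `N` terms are at most `m N`, and at most `m` of them lie in an interval of length `1`. -/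
def PositiveDensity (y : ℕ → ℝ) (m : ℝ) : Prop := ∀ N : ℕ, (∀ n ∈ Finset.Icc 1 N, 1 ≤ y n ∧ y n ≤ m * N) ∧
  ∀ z : ℝ, (((Finset.Icc 1 N).filter fun n => z ≤ y n ∧ y n < z + 1).card : ℝ) ≤ m

/-- Almost surely Q1 holds for `y_n + δ_n U_n`: for all `ε, κ > 0` there is `C` such that `|S| ≤ C N² V⁻² T^ε`
whenever `V² ≥ N T^ε`, `T ≥ N^κ`, `∑ |a_n|² ≤ N`, and `|D(it)| ≥ V` for all `t` in the `1`-separated set
`S ⊂ [0, T]`. -/
theorem result {Ω : Type} [MeasurableSpace Ω] (P : Measure Ω) [IsProbabilityMeasure P] (U : ℕ → Ω → ℝ)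
    (hm : ∀ n, Measurable (U n)) (hi : ProbabilityTheory.iIndepFun U P)
    (hU : ∀ n, P.map (U n) = volume.restrict (Set.Icc 0 1)) (y : ℕ → ℝ) (m : ℝ) (hy : PositiveDensity y m)
    (hm1 : 1 ≤ m) (δ : ℕ → ℝ) (hδ : ∀ n, 0 < δ n ∧ δ n ≤ 1)
    (hδ' : ∀ ε : ℝ, 0 < ε → ∃ c : ℝ, 0 < c ∧ ∀ n : ℕ, 1 ≤ n → c * (n : ℝ) ^ (-ε) ≤ δ n) :
    ∀ᵐ ω ∂P, ∀ ε κ : ℝ, 0 < ε → 0 < κ → ∃ C : ℝ, ∀ (N : ℕ) (T V : ℝ), 1 ≤ N → 1 ≤ T → 0 < V →
      (N : ℝ) ^ κ ≤ T → N * T ^ ε ≤ V ^ 2 → ∀ (a : ℕ → ℂ) (S : Finset ℝ),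
        ∑ n ∈ Finset.Icc 1 N, ‖a n‖ ^ 2 ≤ N → (∀ t ∈ S, 0 ≤ t ∧ t ≤ T) →
        (∀ t ∈ S, ∀ u ∈ S, t ≠ u → 1 ≤ |t - u|) →
        (∀ t ∈ S, V ≤ ‖D (fun n => y n + δ n * U n ω) a N t‖) →
          (S.card : ℝ) ≤ C * (N : ℝ) ^ 2 * V ^ (-2 : ℤ) * T ^ ε := by
  filter_upwards [Pool.Agent.N282.PM.a_AS Ω _ P inferInstance U y δ m hm hi hU hm1 (fun N => hy N) hδ hδ']
    with ω hω
  intro ε κ hε hκ
  obtain ⟨C, hC⟩ := Pool.Agent.N282.PM.t_WS _ hω ε κ hε hκ
  refine ⟨C, fun N T V hN hT hV hNT hV2 a S ha hS hsep hD => ?_⟩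
  refine hC N T V hN hT hV hNT hV2 a S ha hS hsep fun t ht => ?_
  have e : ∀ n : ℕ, Pool.Agent.N282.PM.ph (-t) (Pool.Agent.N282.PM.pt y δ U ω n) =
      Complex.exp (-(Complex.I * t * Real.log (y n + δ n * U n ω))) := by
    intro n
    unfold Pool.Agent.N282.PM.ph Pool.Agent.N282.PM.pt
    congr 1
    push_cast
    ring
  simp only [e]
  exact hD t ht

end Pool.Agent.Results.MP_a93a41_nt.SmoothedSequences
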