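import Mathlib
import Pool.Agent.N793.LV.ZOFin

set_option autoImplicit false

/-!
# Large values of Dirichlet polynomials and sums with the coefficients `0` and `1`

Q1 is equivalent to the bound

`|∑_{n ∈ S} ∑_{t ∈ W} n^{-it}| ≤ C N^{3/2} T^ε`

for all sets `S` of integers in `[1, N]` and all `1`-spaced sets `W` in `[0, T]` with at most `N` points
(`T ≥ N`): no coefficients, no thresholds, no absolute values. For `|W| = |S| = N` the right-hand side is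
(up to `T^ε`) the size of a random sum of `N²` unimodular numbers, maximised over the `2^N · 2^N` subsets.

More precisely, for the same `N ≤ T`, let `L` be the maximum of `|W| V²` over all polynomials with
coefficients bounded by `1` and all `1`-spaced sets `W` with at most `N` points at which `|D| ≥ V`, and let
`B` be the maximum of the `0`-`1` sums. Then `L ≤ K (1 + log N) B² / N` and `B² ≤ K (1 + log N) N (N + L)`.

The first inequality is the new part: a set `W` of large values is made larger by taking signed sums of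
translates of `D`, until it has about `N` points; for a small `W` a `0`-`1` sum over `W` itself says too
little.
-/

namespace Pool.Agent.Results.MP_a93a41_nt.ZeroOneSums

open Finset

/-- `D(it) = ∑_{n ≤ N} a_n n^{-it}` -/
noncomputable def D (N : ℕ) (a : ℕ → ℂ) (t : ℝ) : ℂ :=
  ∑ n ∈ Icc 1 N, a n * (n : ℂ) ^ (-((t : ℂ) * Complex.I))

/-- `W` is a `1`-spaced set in `[0, T]` -/
def Spaced (T : ℝ) (W : Finset ℝ) : Prop :=
  (∀ t ∈ W, 0 ≤ t ∧ t ≤ T) ∧ ∀ t ∈ W, ∀ u ∈ W, t ≠ u → 1 ≤ |t - u|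

/-- `|W| V² ≤ L` if `|D| ≥ V` on the `1`-spaced set `W` with at most `N` points -/
def LargeValues (N : ℕ) (T L : ℝ) : Prop :=
  ∀ (a : ℕ → ℂ) (W : Finset ℝ) (V : ℝ), (∀ n ∈ Icc 1 N, ‖a n‖ ≤ 1) → Spaced T W → W.card ≤ N →
    0 < V → (∀ t ∈ W, V ≤ ‖D N a t‖) → (W.card : ℝ) * V ^ 2 ≤ L

/-- `|∑_{n ∈ S} ∑_{t ∈ W} n^{-it}| ≤ B` for all `S` in `[1, N]` and all `1`-spaced `W` in `[0, T]` with at
most `N` points -/
def ZeroOne (N : ℕ) (T B : ℝ) : Prop :=
  ∀ S ⊆ Icc 1 N, ∀ W : Finset ℝ, Spaced T W → W.card ≤ N →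
    ‖∑ n ∈ S, ∑ t ∈ W, (n : ℂ) ^ (-((t : ℂ) * Complex.I))‖ ≤ B

/-- Q1 -/
def Question : Prop :=
  ∀ ε : ℝ, 0 < ε → ∃ C : ℝ, 0 < C ∧ ∀ (N : ℕ) (T V : ℝ) (a : ℕ → ℂ) (W : Finset ℝ), 1 ≤ N → 1 ≤ T →
    0 < V → (∀ n, ‖a n‖ ≤ 1) → (N : ℝ) * T ^ ε ≤ V ^ 2 → Spaced T W →
    (∀ t ∈ W, V ≤ ‖D N a t‖) → (W.card : ℝ) ≤ C * (N : ℝ) ^ 2 / V ^ 2 * T ^ ε

theorem zo_iff (N : ℕ) (T B : ℝ) : ZeroOne N T B ↔
    Pool.Agent.N793.LV.ZOB (Icc 1 N) Pool.Agent.N793.LV.ml T B := by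
  have hc : (Icc 1 N).card = N := by rw [Nat.card_Icc, Nat.add_sub_cancel]
  have he : ∀ S ⊆ Icc 1 N, ∀ W : Finset ℝ,
      ∑ n ∈ S, ∑ t ∈ W, (n : ℂ) ^ (-((t : ℂ) * Complex.I)) =
      ∑ n ∈ S, ∑ t ∈ W, Complex.exp (Complex.I * (t : ℂ) * (Pool.Agent.N793.LV.ml n : ℂ)) := by
    intro S hS W
    apply sum_congr rfl
    intro n hn
    apply sum_congr rfl
    intro t _
    exact Pool.Agent.N793.LV.cpow_eq (mem_Icc.1 (hS hn)).1 t
  constructor
  · intro h S hS W hsep hW hcard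
    rw [← he S hS W]
    exact h S hS W ⟨hW, hsep⟩ (by rw [hc] at hcard; exact hcard)
  · intro h S hS W hW hcard
    rw [he S hS W]
    exact h S hS W hW.2 hW.1 (by rw [hc]; exact hcard)

theorem lv_iff (N : ℕ) (T L : ℝ) : LargeValues N T L ↔
    Pool.Agent.N793.LV.LVB (Icc 1 N) Pool.Agent.N793.LV.ml T L := by
  have hc : (Icc 1 N).card = N := by rw [Nat.card_Icc, Nat.add_sub_cancel]
  constructor
  · intro h b W V hb hsep hW hcard hV hVW
    exact h b W V hb ⟨hW, hsep⟩ (by rw [hc] at hcard; exact hcard) hV (fun t ht => by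
      unfold D
      rw [Pool.Agent.N793.LV.F_ml]
      exact hVW t ht)
  · intro h a W V ha hW hcard hV hVW
    exact h a W V ha hW.2 hW.1 (by rw [hc]; exact hcard) hV (fun t ht => by
      rw [← Pool.Agent.N793.LV.F_ml]
      exact hVW t ht)

theorem q_iff : Question ↔ Pool.Agent.N793.LV.MontF := by
  constructor
  · intro h ε hε
    obtain ⟨C, hC, h⟩ := h ε hε
    refine ⟨C, hC, ?_⟩
    intro N T V a W hN hT hV ha hNV hW hsep hVW
    exact h N T V a W hN hT hV ha hNV ⟨hW, hsep⟩ (fun t ht => by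
      unfold D
      rw [Pool.Agent.N793.LV.F_ml]
      exact hVW t ht)
  · intro h ε hε
    obtain ⟨C, hC, h⟩ := h ε hε
    refine ⟨C, hC, ?_⟩
    intro N T V a W hN hT hV ha hNV hW hVW
    exact h N T V a W hN hT hV ha hNV hW.1 hW.2 (fun t ht => by
      rw [← Pool.Agent.N793.LV.F_ml]
      exact hVW t ht)

theorem result :
    -- the maximum of `|W| V²` and the maximum of the `0`-`1` sums, for the same `N ≤ T`
    (∃ K : ℝ, 0 < K ∧ ∀ (N : ℕ) (T : ℝ), 1 ≤ N → (N : ℝ) ≤ T →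
      (∀ B : ℝ, ZeroOne N T B → LargeValues N T (K * (1 + Real.log N) * B ^ 2 / N)) ∧
      ∀ L : ℝ, LargeValues N T L → ZeroOne N T (Real.sqrt (K * (1 + Real.log N) * N * (N + L)))) ∧
    -- Q1
    (Question ↔ ∀ ε : ℝ, 0 < ε → ∃ C : ℝ, 0 < C ∧ ∀ (N : ℕ) (T : ℝ), 1 ≤ N → (N : ℝ) ≤ T →
      ZeroOne N T (C * (N : ℝ) ^ (3 / 2 : ℝ) * T ^ ε)) ∧
    (Question ↔ ∀ ε : ℝ, 0 < ε → ∃ C : ℝ, 0 < C ∧ ∀ (N : ℕ) (T : ℝ), 1 ≤ N → 1 ≤ T →
      ZeroOne N T (C * (N : ℝ) ^ (3 / 2 : ℝ) * T ^ ε)) := by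
  have h1 : Question → ∀ ε : ℝ, 0 < ε → ∃ C : ℝ, 0 < C ∧ ∀ (N : ℕ) (T : ℝ), 1 ≤ N → 1 ≤ T →
      ZeroOne N T (C * (N : ℝ) ^ (3 / 2 : ℝ) * T ^ ε) := by
    intro h ε hε
    obtain ⟨C, hC, hz⟩ := Pool.Agent.N793.LV.mont_to_zo (q_iff.1 h) ε hε
    exact ⟨C, hC, fun N T hN hT => (zo_iff N T _).2 (hz N T hN hT)⟩
  have h2 : (∀ ε : ℝ, 0 < ε → ∃ C : ℝ, 0 < C ∧ ∀ (N : ℕ) (T : ℝ), 1 ≤ N → (N : ℝ) ≤ T →
      ZeroOne N T (C * (N : ℝ) ^ (3 / 2 : ℝ) * T ^ ε)) → Question := by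
    intro h
    apply q_iff.2
    apply Pool.Agent.N793.LV.zo_to_mont
    intro ε hε
    obtain ⟨C, hC, hz⟩ := h ε hε
    exact ⟨C, hC, fun N T hN hT => (zo_iff N T _).1 (hz N T hN hT)⟩
  refine ⟨⟨2 ^ 23, by norm_num, ?_⟩, ⟨fun h ε hε => ?_, h2⟩, ⟨h1, fun h => h2 fun ε hε => ?_⟩⟩
  · intro N T hN hT
    have hN1 : (1 : ℝ) ≤ N := by exact_mod_cast hN
    have hN0 : (0 : ℝ) < N := by linarith
    have hl : 0 ≤ Real.log N := Real.log_nonneg hN1
    have hne : (Icc 1 N).Nonempty := ⟨1, mem_Icc.2 ⟨le_rfl, hN⟩⟩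
    have hcI := Pool.Agent.N793.LV.card_I N
    constructor
    · intro B hB
      have h := Pool.Agent.N793.LV.lv_of_zo (Icc 1 N) Pool.Agent.N793.LV.ml hne
        (by rw [hcI]; exact hT) ((zo_iff N T B).1 hB)
      rw [hcI] at h
      rw [lv_iff]
      intro b W V hb hsep hW hc hV hVW
      refine (h b W V hb hsep hW hc hV hVW).trans ?_
      apply div_le_div_of_nonneg_right _ hN0.le
      have h3 := Pool.Agent.N793.LV.log16 hN1
      have h4 : 0 ≤ B ^ 2 := sq_nonneg _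
      nlinarith
    · intro L hL
      have h := Pool.Agent.N793.LV.zo_of_lv (Icc 1 N) Pool.Agent.N793.LV.ml hne ((lv_iff N T L).1 hL)
      rw [hcI] at h
      rw [zo_iff]
      intro S hS W hsep hW hc
      refine (h S hS W hsep hW hc).trans ?_
      apply Real.sqrt_le_sqrt
      have hL0 : 0 ≤ L := by
        have := hL (fun _ => 0) ∅ 1 (fun _ _ => by simp)
          ⟨fun t ht => by simp at ht, fun t ht => by simp at ht⟩ (by simp) one_pos
          (fun t ht => by simp at ht)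
        simpa using this
      have h5 : Real.log N / Real.log 2 ≤ 2 * Real.log N := by
        rw [div_le_iff₀ (Real.log_pos (by norm_num))]
        have := Real.log_two_gt_d9
        nlinarith
      have h6 : 4 * L * (2 + Real.log N / Real.log 2) ≤ 8 * (1 + Real.log N) * L := by
        have := mul_le_mul_of_nonneg_left h5 (by linarith : 0 ≤ 4 * L)
        nlinarith
      have h7 : (N : ℝ) ≤ 8 * (1 + Real.log N) * N := by nlinarith
      have h8 : (N : ℝ) + 4 * L * (2 + Real.log N / Real.log 2) ≤ 2 ^ 23 * (1 + Real.log N) * (N + L) := by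
        have : 8 * (1 + Real.log N) * (N + L) ≤ 2 ^ 23 * (1 + Real.log N) * (N + L) := by
          gcongr
          norm_num
        linarith
      calc (N : ℝ) * (N + 4 * L * (2 + Real.log N / Real.log 2))
          ≤ N * (2 ^ 23 * (1 + Real.log N) * (N + L)) := mul_le_mul_of_nonneg_left h8 hN0.le
        _ = _ := by ring
  · obtain ⟨C, hC, hz⟩ := h1 h ε hε
    refine ⟨C, hC, fun N T hN hT => hz N T hN ?_⟩
    have hN1 : (1 : ℝ) ≤ N := by exact_mod_cast hN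
    linarith
  · obtain ⟨C, hC, hz⟩ := h ε hε
    refine ⟨C, hC, fun N T hN hT => hz N T hN ?_⟩
    have hN1 : (1 : ℝ) ≤ N := by exact_mod_cast hN
    linarith

end Pool.Agent.Results.MP_a93a41_nt.ZeroOneSums
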